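import Mathlib

/-!
# The twisted conjugacy ratio of an endomorphism of a free group can be positive

For the free group on two generators (the right-angled Artin group of the graph with two vertices
and no edge) and the endomorphism sending each basis element to its fifth power, every reduced word
whose last two letters differ is the unique shortest element of its twisted conjugacy class.
-/

set_option autoImplicit false

namespace Pool.Agent.Results.MP_dff590_al.TcrPositive

open Filter
open scoped ENNReal

/-- Defining relators of the right-angled Artin group of the graph `Γ`. -/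
def raagRels {V : Type} (Γ : SimpleGraph V) : Set (FreeGroup V) :=
  {r | ∃ u v : V, Γ.Adj u v ∧ 
    r = FreeGroup.of u * FreeGroup.of v * (FreeGroup.of u)⁻¹ * (FreeGroup.of v)⁻¹}

/-- The right-angled Artin group of the graph `Γ`. -/
abbrev RAAG {V : Type} (Γ : SimpleGraph V) : Type := PresentedGroup (raagRels Γ)

/-- The ball of radius `n` about the identity in the word metric of `X`. -/
def wordBall {G : Type} [Group G] (X : Set G) (n : ℕ) : Set G :=
  {g | ∃ l : List G, l.length ≤ n ∧ (∀ x ∈ l, x ∈ X ∨ x⁻¹ ∈ X) ∧ l.prod = g}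

/-- Twisted conjugacy: `x = z y φ(z)⁻¹` for some `z`. -/
def twistedConj {G : Type} [Group G] (φ : G →* G) : Setoid G where
  r x y := ∃ z : G, x = z * y * (φ z)⁻¹
  iseqv := by
    refine ⟨fun x => ⟨1, by simp⟩, ?_, ?_⟩
    · rintro x y ⟨z, rfl⟩
      exact ⟨z⁻¹, by simp [mul_assoc]⟩
    · rintro x y w ⟨z, rfl⟩ ⟨z', rfl⟩
      exact ⟨z * z', by simp [mul_assoc]⟩

/-- The set of twisted conjugacy classes that have a representative in the ball of radius `n`. -/
def classesInBall {G : Type} [Group G] (φ : G →* G) (X : Set G) (n : ℕ) :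
    Set (Quotient (twistedConj φ)) :=
  (Quotient.mk (twistedConj φ)) '' wordBall X n

/-- The twisted conjugacy ratio. -/
noncomputable def tcr {G : Type} [Group G] (φ : G →* G) (X : Set G) : ℝ≥0∞ :=
  limsup (fun n : ℕ => ((classesInBall φ X n).ncard : ℝ≥0∞) / ((wordBall X n).ncard : ℝ≥0∞)) atTop

/-! ### Words in the free group -/

section Free

variable {α : Type}

/-- Replace each letter by `N` copies. -/
def blow (N : ℕ) (L : List (α × Bool)) : List (α × Bool) := L.flatMap fun x => List.replicate N x

/-- The endomorphism raising each basis element to the power `N`. -/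
def powHom (α : Type) (N : ℕ) : FreeGroup α →* FreeGroup α := FreeGroup.lift fun a => FreeGroup.of a ^ N

theorem mk_replicate (a : α) (b : Bool) (N : ℕ) :
    (FreeGroup.mk (List.replicate N (a, b)) : FreeGroup α) =
      (FreeGroup.mk [(a, b)] : FreeGroup α) ^ N := by
  induction N with
  | zero => rfl
  | succ n ih =>
    rw [List.replicate_succ, pow_succ', ← ih, FreeGroup.mul_mk]
    rfl

theorem powHom_mk (N : ℕ) (L : List (α × Bool)) :
    powHom α N (FreeGroup.mk L) = FreeGroup.mk (blow N L) := by
  induction L with
  | nil => simp [blow, ← FreeGroup.one_eq_mk]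
  | cons x L ih =>
    obtain ⟨a, b⟩ := x
    have h1 : (FreeGroup.mk ((a, b) :: L) : FreeGroup α) = FreeGroup.mk [(a, b)] * FreeGroup.mk L := by
      rw [FreeGroup.mul_mk]; rfl
    have h2 : blow N ((a, b) :: L) = List.replicate N (a, b) ++ blow N L := by
      simp [blow]
    rw [h1, map_mul, ih, h2, ← FreeGroup.mul_mk, mk_replicate]
    congr 1
    cases b
    · have : (FreeGroup.mk [(a, false)] : FreeGroup α) = (FreeGroup.of a)⁻¹ := by
        rw [FreeGroup.of, FreeGroup.inv_mk]; rfl
      rw [this, map_inv, inv_pow]
      simp [powHom]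
    · have : (FreeGroup.mk [(a, true)] : FreeGroup α) = FreeGroup.of a := rfl
      rw [this]
      simp [powHom]


theorem blow_append (N : ℕ) (L M : List (α × Bool)) : blow N (L ++ M) = blow N L ++ blow N M := by
  simp [blow]

theorem length_blow (N : ℕ) (L : List (α × Bool)) : (blow N L).length = N * L.length := by
  induction L with
  | nil => simp [blow]
  | cons x L ih =>
    have h2 : blow N (x :: L) = List.replicate N x ++ blow N L := by simp [blow]
    rw [h2, List.length_append, ih, List.length_replicate, List.length_cons]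
    ring

theorem isReduced_replicate (N : ℕ) (x : α × Bool) : FreeGroup.IsReduced (List.replicate N x) := by
  induction N with
  | zero => exact FreeGroup.IsReduced.nil
  | succ n ih =>
    cases n with
    | zero => exact FreeGroup.IsReduced.singleton
    | succ m =>
      rw [List.replicate_succ, List.replicate_succ, FreeGroup.isReduced_cons_cons]
      refine ⟨fun _ => rfl, ?_⟩
      rw [← List.replicate_succ]
      exact ih

theorem isReduced_blow (N : ℕ) (L : List (α × Bool)) (h : FreeGroup.IsReduced L) :
    FreeGroup.IsReduced (blow N L) := by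
  cases N with
  | zero =>
    have : blow 0 L = [] := by
      have := length_blow 0 L
      rw [Nat.zero_mul] at this
      exact List.length_eq_zero_iff.1 this
    rw [this]
    exact FreeGroup.IsReduced.nil
  | succ N =>
    induction L with
    | nil => simp [blow]
    | cons x L ih =>
      have h2 : ∀ (x : α × Bool) (L : List (α × Bool)),
          blow (N + 1) (x :: L) = List.replicate (N + 1) x ++ blow (N + 1) L := by
        intro x L; simp [blow]
      cases L with
      | nil =>
        rw [h2]
        simpa [blow] using isReduced_replicate (N + 1) x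
      | cons y L =>
        rw [FreeGroup.isReduced_cons_cons] at h
        have ih' := ih h.2
        rw [h2]
        have e1 : List.replicate (N + 1) x ++ blow (N + 1) (y :: L) =
            List.replicate N x ++ [x] ++ blow (N + 1) (y :: L) := by
          rw [List.replicate_succ']
        rw [e1]
        refine FreeGroup.IsReduced.append_overlap ?_ ?_ (by simp)
        · rw [← List.replicate_succ']
          exact isReduced_replicate _ _
        · have e2 : [x] ++ blow (N + 1) (y :: L) =
              x :: y :: (List.replicate N y ++ blow (N + 1) L) := by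
            rw [h2, List.replicate_succ]; rfl
          rw [e2, FreeGroup.isReduced_cons_cons]
          refine ⟨h.1, ?_⟩
          rw [h2, List.replicate_succ, List.cons_append] at ih'
          exact ih'

variable [DecidableEq α]

theorem toWord_powHom (N : ℕ) (z : FreeGroup α) :
    (powHom α N z).toWord = blow N z.toWord := by
  have h : powHom α N z = FreeGroup.mk (blow N z.toWord) := by
    conv_lhs => rw [← FreeGroup.mk_toWord (x := z)]
    exact powHom_mk N _
  rw [h, FreeGroup.toWord_mk]
  exact (isReduced_blow N _ FreeGroup.isReduced_toWord).reduce_eq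

/-- The last two letters of the reduced word of `y` have different underlying generators. -/
def Good (y : FreeGroup α) : Prop :=
  ∃ (L : List (α × Bool)) (p q : α × Bool), y.toWord = L ++ [p] ++ [q] ∧ p.1 ≠ q.1

theorem norm_ge (N : ℕ) (hN : 2 ≤ N) (y z : FreeGroup α) (hy : Good y) (hz : z ≠ 1) :
    y.norm + N * z.norm ≤ (y * (powHom α N z)⁻¹).norm + 2 := by
  obtain ⟨L, p, q, hyw, hpq⟩ := hy
  have hzw : z.toWord ≠ [] := by
    rwa [Ne, FreeGroup.toWord_eq_nil_iff]
  obtain ⟨M, r, hM⟩ : ∃ M r, z.toWord = M ++ [r] :=
    ⟨z.toWord.dropLast, z.toWord.getLast hzw, (List.dropLast_append_getLast hzw).symm⟩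
  obtain ⟨N', rfl⟩ : ∃ N', N = N' + 2 := ⟨N - 2, by omega⟩
  set r' : α × Bool := (r.1, !r.2) with hr'
  set V' : List (α × Bool) := List.replicate (N' + 1) r' ++ FreeGroup.invRev (blow (N' + 2) M)
    with hV'
  have hV : ((powHom α (N' + 2) z)⁻¹).toWord = r' :: V' := by
    rw [FreeGroup.toWord_inv, toWord_powHom, hM, blow_append, FreeGroup.invRev_append]
    have : blow (N' + 2) [r] = List.replicate (N' + 2) r := by simp [blow]
    rw [this]
    have h2 : FreeGroup.invRev (List.replicate (N' + 2) r) = List.replicate (N' + 2) r' := by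
      simp [FreeGroup.invRev, hr']
    rw [h2, List.replicate_succ, List.cons_append]
  have hVred : FreeGroup.IsReduced (r' :: V') := by
    rw [← hV]; exact FreeGroup.isReduced_toWord
  have hV'c : ∃ V'', V' = r' :: V'' :=
    ⟨List.replicate N' r' ++ FreeGroup.invRev (blow (N' + 2) M), by
      rw [hV', List.replicate_succ, List.cons_append]⟩
  have hyred : FreeGroup.IsReduced (L ++ [p] ++ [q]) := by
    rw [← hyw]; exact FreeGroup.isReduced_toWord
  have hlen : (r' :: V').length = (N' + 2) * z.norm := by
    rw [← hV]
    change ((powHom α (N' + 2) z)⁻¹).norm = _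
    rw [FreeGroup.norm_inv_eq]
    change (powHom α (N' + 2) z).toWord.length = _
    rw [toWord_powHom, length_blow]
    rfl
  have hynorm : y.norm = L.length + 2 := by
    change y.toWord.length = _
    rw [hyw]; simp
  have hprod : y * (powHom α (N' + 2) z)⁻¹ = FreeGroup.mk (L ++ [p] ++ [q] ++ (r' :: V')) := by
    conv_lhs => rw [← FreeGroup.mk_toWord (x := y), ← FreeGroup.mk_toWord (x := (powHom α (N' + 2) z)⁻¹)]
    rw [FreeGroup.mul_mk, hyw, hV]
  by_cases hqr : q = r
  · -- one cancellation
    have hred : FreeGroup.IsReduced (L ++ [p] ++ V') := by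
      refine FreeGroup.IsReduced.append_overlap ?_ ?_ (by simp)
      · exact List.IsChain.left_of_append hyred
      · obtain ⟨V'', hV''⟩ := hV'c
        rw [hV'', List.singleton_append, FreeGroup.isReduced_cons_cons]
        refine ⟨fun h => ?_, ?_⟩
        · exfalso
          apply hpq
          rw [hqr, h]
        · have h9 := hVred
          rw [hV'', FreeGroup.isReduced_cons_cons] at h9
          exact h9.2
    have heq : (FreeGroup.mk (L ++ [p] ++ [q] ++ (r' :: V')) : FreeGroup α) =
        FreeGroup.mk (L ++ [p] ++ V') := by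
      have : FreeGroup.Red.Step (L ++ [p] ++ (q.1, q.2) :: (q.1, !q.2) :: V') (L ++ [p] ++ V') :=
        FreeGroup.Red.Step.not
      have h3 := Quot.sound this
      have h4 : L ++ [p] ++ [q] ++ (r' :: V') = L ++ [p] ++ (q.1, q.2) :: (q.1, !q.2) :: V' := by
        rw [hr', ← hqr]
        simp
      rw [h4]
      exact h3
    rw [hprod, heq]
    have h5 : (FreeGroup.mk (L ++ [p] ++ V') : FreeGroup α).norm = (L ++ [p] ++ V').length := by
      change (FreeGroup.toWord _).length = _
      rw [FreeGroup.toWord_mk, hred.reduce_eq]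
    rw [h5, hynorm, ← hlen]
    simp only [List.length_append, List.length_cons, List.length_nil]
    omega
  · have hred : FreeGroup.IsReduced (L ++ [p] ++ [q] ++ (r' :: V')) := by
      refine FreeGroup.IsReduced.append_overlap hyred ?_ (by simp)
      rw [List.singleton_append, FreeGroup.isReduced_cons_cons]
      refine ⟨fun h => ?_, hVred⟩
      have h1 : q.1 = r.1 := h
      have h2 : q.2 ≠ r.2 := fun h2 => hqr (Prod.ext h1 h2)
      rw [hr']
      change q.2 = !r.2
      cases hq : q.2 <;> cases hr : r.2 <;> simp_all
    rw [hprod]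
    have h5 : (FreeGroup.mk (L ++ [p] ++ [q] ++ (r' :: V')) : FreeGroup α).norm =
        (L ++ [p] ++ [q] ++ (r' :: V')).length := by
      change (FreeGroup.toWord _).length = _
      rw [FreeGroup.toWord_mk, hred.reduce_eq]
    rw [h5, hynorm, ← hlen]
    simp only [List.length_append, List.length_cons, List.length_nil]
    omega

theorem norm_lt (y z : FreeGroup α) (hy : Good y) (hz : z ≠ 1) :
    y.norm < (z * y * (powHom α 5 z)⁻¹).norm := by
  have h1 := norm_ge 5 (by norm_num) y z hy hz
  have h2 : (y * (powHom α 5 z)⁻¹).norm ≤ z.norm + (z * y * (powHom α 5 z)⁻¹).norm := by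
    have : y * (powHom α 5 z)⁻¹ = z⁻¹ * (z * y * (powHom α 5 z)⁻¹) := by group
    calc (y * (powHom α 5 z)⁻¹).norm = (z⁻¹ * (z * y * (powHom α 5 z)⁻¹)).norm := by rw [← this]
      _ ≤ z⁻¹.norm + (z * y * (powHom α 5 z)⁻¹).norm := FreeGroup.norm_mul_le _ _
      _ = _ := by rw [FreeGroup.norm_inv_eq]
  have h3 : 1 ≤ z.norm := by
    rw [Nat.one_le_iff_ne_zero, Ne, FreeGroup.norm_eq_zero]
    exact hz
  omega

theorem good_unique (x y : FreeGroup α) (hx : Good x) (hy : Good y)
    (h : (twistedConj (powHom α 5)) x y) : x = y := by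
  obtain ⟨z, hz⟩ := h
  by_cases h1 : z = 1
  · rw [hz, h1]; simp
  · exfalso
    have h2 := norm_lt y z hy h1
    rw [← hz] at h2
    have h3 := norm_lt x z⁻¹ hx (by simpa using h1)
    have h4 : z⁻¹ * x * (powHom α 5 z⁻¹)⁻¹ = y := by
      rw [hz, map_inv]; group
    rw [h4] at h3
    omega


theorem mem_wordBall_iff (n : ℕ) (g : FreeGroup α) :
    g ∈ wordBall (Set.range (FreeGroup.of : α → FreeGroup α)) n ↔ g.norm ≤ n := by
  constructor
  · rintro ⟨l, hl, hx, rfl⟩
    refine le_trans ?_ hl
    clear hl
    induction l with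
    | nil => simp
    | cons x l ih =>
      rw [List.prod_cons, List.length_cons]
      have h1 : x.norm ≤ 1 := by
        rcases hx x (by simp) with ⟨a, rfl⟩ | ⟨a, ha⟩
        · simp
        · rw [← FreeGroup.norm_inv_eq, ← ha]
          simp
      have h2 := ih fun y hy => hx y (by simp [hy])
      have h3 := FreeGroup.norm_mul_le x l.prod
      omega
  · intro h
    refine ⟨g.toWord.map fun x => FreeGroup.mk [x], by rw [List.length_map]; exact h, ?_, ?_⟩
    · intro x hx
      rw [List.mem_map] at hx
      obtain ⟨⟨a, b⟩, -, rfl⟩ := hx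
      cases b
      · right
        refine ⟨a, ?_⟩
        rw [FreeGroup.of, FreeGroup.inv_mk]; rfl
      · left; exact ⟨a, rfl⟩
    · have h1 : ∀ L : List (α × Bool),
          (L.map fun x => (FreeGroup.mk [x] : FreeGroup α)).prod = FreeGroup.mk L := by
        intro L
        induction L with
        | nil => rfl
        | cons x L ih =>
          rw [List.map_cons, List.prod_cons, ih, FreeGroup.mul_mk]
          rfl
      rw [h1, FreeGroup.mk_toWord]

theorem finite_wordBall [Finite α] (n : ℕ) :
    (wordBall (Set.range (FreeGroup.of : α → FreeGroup α)) n).Finite := by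
  have h1 : {l : List (α × Bool) | l.length ≤ n}.Finite := List.finite_length_le _ _
  refine Set.Finite.subset (h1.image FreeGroup.mk) ?_
  intro g hg
  rw [mem_wordBall_iff] at hg
  exact ⟨g.toWord, hg, FreeGroup.mk_toWord⟩

end Free

theorem wordBall_add {G : Type} [Group G] (X : Set G) (m n : ℕ) :
    wordBall X (m + n) ⊆ Set.image2 (fun a b => a * b) (wordBall X m) (wordBall X n) := by
  rintro g ⟨l, hl, hx, rfl⟩
  refine ⟨(l.take m).prod, ⟨l.take m, by simp, fun x hx' => hx x (List.mem_of_mem_take hx'), rfl⟩,
    (l.drop m).prod, ⟨l.drop m, by simp; omega, fun x hx' => hx x (List.mem_of_mem_drop hx'), rfl⟩,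
    ?_⟩
  exact List.prod_take_mul_prod_drop l m

/-- The two-generator case: the extension of a word by two letters. -/
theorem exists_good (g : FreeGroup Bool) :
    ∃ h : FreeGroup Bool, Good h ∧ ∃ p q, h.toWord = g.toWord ++ [p] ++ [q] := by
  obtain ⟨p, hp⟩ : ∃ p : Bool × Bool, FreeGroup.IsReduced (g.toWord ++ [p]) := by
    by_cases hg : g.toWord = []
    · exact ⟨(true, true), by rw [hg]; exact FreeGroup.IsReduced.singleton⟩
    · obtain ⟨M, r, hM⟩ : ∃ M r, g.toWord = M ++ [r] :=
        ⟨g.toWord.dropLast, g.toWord.getLast hg, (List.dropLast_append_getLast hg).symm⟩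
      refine ⟨(!r.1, true), ?_⟩
      rw [hM]
      refine FreeGroup.IsReduced.append_overlap ?_ ?_ (by simp)
      · rw [← hM]; exact FreeGroup.isReduced_toWord
      · rw [List.singleton_append, FreeGroup.isReduced_cons_cons]
        refine ⟨fun h => ?_, FreeGroup.IsReduced.singleton⟩
        exfalso
        simp at h
  have hred : FreeGroup.IsReduced (g.toWord ++ [p] ++ [(!p.1, true)]) := by
    refine FreeGroup.IsReduced.append_overlap hp ?_ (by simp)
    rw [List.singleton_append, FreeGroup.isReduced_cons_cons]
    refine ⟨fun h => ?_, FreeGroup.IsReduced.singleton⟩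
    exfalso
    simp at h
  have hw : (FreeGroup.mk (g.toWord ++ [p] ++ [(!p.1, true)])).toWord =
      g.toWord ++ [p] ++ [(!p.1, true)] := by
    rw [FreeGroup.toWord_mk, hred.reduce_eq]
  exact ⟨FreeGroup.mk (g.toWord ++ [p] ++ [(!p.1, true)]), ⟨g.toWord, p, (!p.1, true), hw, by simp⟩,
    p, _, hw⟩

theorem card_le_classes (n : ℕ) :
    (wordBall (Set.range (FreeGroup.of : Bool → FreeGroup Bool)) n).ncard ≤
      (classesInBall (powHom Bool 5) (Set.range (FreeGroup.of : Bool → FreeGroup Bool))
        (n + 2)).ncard := by
  choose f hf p q hpq using exists_good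
  refine Set.ncard_le_ncard_of_injOn (fun g => Quotient.mk (twistedConj (powHom Bool 5)) (f g))
    ?_ ?_ ?_
  · intro g hg
    refine ⟨f g, ?_, rfl⟩
    rw [mem_wordBall_iff] at hg ⊢
    change (f g).toWord.length ≤ n + 2
    rw [hpq]
    have : g.toWord.length ≤ n := hg
    simp only [List.length_append, List.length_cons, List.length_nil]
    omega
  · intro g _ g' _ h
    have h1 := Quotient.exact h
    have h2 := good_unique _ _ (hf g) (hf g') h1
    have h3 : g.toWord ++ [p g] ++ [q g] = g'.toWord ++ [p g'] ++ [q g'] := by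
      rw [← hpq, ← hpq, h2]
    have h4 := (List.append_inj' h3 rfl).1
    have h5 := (List.append_inj' h4 rfl).1
    exact FreeGroup.toWord_injective h5
  · exact (finite_wordBall (n + 2)).image _

theorem tcr_free : 0 < tcr (powHom Bool 5) (Set.range (FreeGroup.of : Bool → FreeGroup Bool)) := by
  set X := Set.range (FreeGroup.of : Bool → FreeGroup Bool) with hX
  set K : ℕ := (wordBall X 2).ncard with hK
  have hpos : ∀ n, 0 < (wordBall X n).ncard := by
    intro n
    rw [Set.ncard_pos (finite_wordBall n)]
    exact ⟨1, [], by simp, by simp, rfl⟩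
  have h1 : ∀ n, (wordBall X (n + 2)).ncard ≤ (wordBall X n).ncard * K := by
    intro n
    calc (wordBall X (n + 2)).ncard
        ≤ (Set.image2 (fun a b => a * b) (wordBall X n) (wordBall X 2)).ncard :=
          Set.ncard_le_ncard (wordBall_add X n 2)
            (Set.Finite.image2 _ (finite_wordBall n) (finite_wordBall 2))
      _ ≤ _ := by
          rw [← Set.image_uncurry_prod]
          refine (Set.ncard_image_le ((finite_wordBall n).prod (finite_wordBall 2))).trans ?_
          rw [Set.ncard_prod]
  have h2 : ∀ n, 2 ≤ n → ((K : ℝ≥0∞))⁻¹ ≤ ((classesInBall (powHom Bool 5) X n).ncard : ℝ≥0∞) /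
      ((wordBall X n).ncard : ℝ≥0∞) := by
    intro n hn
    obtain ⟨m, rfl⟩ : ∃ m, n = m + 2 := ⟨n - 2, by omega⟩
    rw [ENNReal.le_div_iff_mul_le (Or.inl (by exact_mod_cast (hpos _).ne'))
      (Or.inl (ENNReal.natCast_ne_top _))]
    calc ((K : ℝ≥0∞))⁻¹ * ((wordBall X (m + 2)).ncard : ℝ≥0∞)
        ≤ ((K : ℝ≥0∞))⁻¹ * ((((wordBall X m).ncard * K : ℕ)) : ℝ≥0∞) := by
          gcongr
          exact h1 m
      _ = ((wordBall X m).ncard : ℝ≥0∞) := by
          rw [Nat.cast_mul, mul_comm, mul_assoc, ENNReal.mul_inv_cancel, mul_one]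
          · exact_mod_cast (hpos 2).ne'
          · exact ENNReal.natCast_ne_top _
      _ ≤ _ := by exact_mod_cast card_le_classes m
  have h3 : ((K : ℝ≥0∞))⁻¹ ≤ tcr (powHom Bool 5) X := by
    refine le_trans ?_ (Filter.liminf_le_limsup)
    refine Filter.le_liminf_of_le ?_ ?_
    · isBoundedDefault
    · filter_upwards [Filter.eventually_ge_atTop 2] with n hn using h2 n hn
  refine lt_of_lt_of_le ?_ h3
  rw [ENNReal.inv_pos]
  exact ENNReal.natCast_ne_top _

/-! ### Transport along an isomorphism -/

section Transport

variable {G H : Type} [Group G] [Group H] (e : G ≃* H) (φ : H →* H) (X : Set H)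

/-- The endomorphism of `G` corresponding to the endomorphism `φ` of `H`. -/
def pullHom : G →* G := (e.symm.toMonoidHom.comp φ).comp e.toMonoidHom

theorem wordBall_pull (n : ℕ) : wordBall (e.symm '' X) n = e.symm '' wordBall X n := by
  ext g
  constructor
  · rintro ⟨l, hl, hx, rfl⟩
    refine ⟨(l.map e).prod, ⟨l.map e, by simpa using hl, ?_, rfl⟩, ?_⟩
    · intro x hx'
      rw [List.mem_map] at hx'
      obtain ⟨y, hy, rfl⟩ := hx'
      rcases hx y hy with ⟨a, ha, rfl⟩ | ⟨a, ha, hay⟩
      · left; simpa using ha
      · right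
        have : (e y)⁻¹ = a := by rw [← map_inv, ← hay]; simp
        rw [this]; exact ha
    · rw [← map_list_prod e l]; simp
  · rintro ⟨_, ⟨l, hl, hx, rfl⟩, rfl⟩
    refine ⟨l.map e.symm, by simpa using hl, ?_, ?_⟩
    · intro x hx'
      rw [List.mem_map] at hx'
      obtain ⟨y, hy, rfl⟩ := hx'
      rcases hx y hy with h | h
      · left; exact ⟨y, h, rfl⟩
      · right; exact ⟨y⁻¹, h, by simp⟩
    · rw [← map_list_prod e.symm l]

theorem tcr_pull : tcr (pullHom e φ) (e.symm '' X) = tcr φ X := by
  have h1 : ∀ n, (wordBall (e.symm '' X) n).ncard = (wordBall X n).ncard := by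
    intro n
    rw [wordBall_pull]
    exact Set.ncard_image_of_injective _ e.symm.injective
  have hmap : ∀ a b : G, (twistedConj (pullHom e φ)) a b → (twistedConj φ) (e a) (e b) := by
    rintro a b ⟨z, rfl⟩
    refine ⟨e z, ?_⟩
    simp [pullHom]
  have hmap' : ∀ a b : G, (twistedConj φ) (e a) (e b) → (twistedConj (pullHom e φ)) a b := by
    rintro a b ⟨z, hz⟩
    refine ⟨e.symm z, ?_⟩
    apply e.injective
    rw [hz]
    simp [pullHom]
  have h2 : ∀ n, (classesInBall (pullHom e φ) (e.symm '' X) n).ncard =
      (classesInBall φ X n).ncard := by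
    intro n
    let F : Quotient (twistedConj (pullHom e φ)) → Quotient (twistedConj φ) :=
      Quotient.map e hmap
    have hF : Function.Injective F := by
      intro a b
      refine Quotient.inductionOn₂ a b ?_
      intro a b hab
      apply Quotient.sound
      exact hmap' a b (Quotient.exact hab)
    have h3 : classesInBall φ X n = F '' (classesInBall (pullHom e φ) (e.symm '' X) n) := by
      rw [classesInBall, classesInBall, wordBall_pull, Set.image_image, Set.image_image]
      apply Set.image_congr
      intro a _
      change _ = Quotient.mk _ (e (e.symm a))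
      rw [MulEquiv.apply_symm_apply]
    rw [h3]
    exact (Set.ncard_image_of_injective _ hF).symm
  unfold tcr
  simp only [h1, h2]

end Transport

/-- The right-angled Artin group of the graph without edges is free. -/
noncomputable def raagBot : RAAG (⊥ : SimpleGraph Bool) ≃* FreeGroup Bool :=
  (QuotientGroup.quotientMulEquivOfEq (by
    have : raagRels (⊥ : SimpleGraph Bool) = ∅ := by
      ext r; simp [raagRels]
    rw [this]
    exact Subgroup.normalClosure_empty)).trans QuotientGroup.quotientBot

/-- **Main theorem.** There is a non-abelian right-angled Artin group with an endomorphism and a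
finite generating set for which the twisted conjugacy ratio is positive. -/
theorem result : ∃ (V : Type) (_ : Finite V) (Γ : SimpleGraph V) (φ : RAAG Γ →* RAAG Γ)
    (X : Set (RAAG Γ)), (∃ a b : RAAG Γ, a * b ≠ b * a) ∧ X.Finite ∧ Subgroup.closure X = ⊤ ∧
      0 < tcr φ X := by
  refine ⟨Bool, inferInstance, ⊥, pullHom raagBot (powHom Bool 5),
    raagBot.symm '' (Set.range (FreeGroup.of : Bool → FreeGroup Bool)), ?_, ?_, ?_, ?_⟩
  · refine ⟨raagBot.symm (FreeGroup.of true), raagBot.symm (FreeGroup.of false), ?_⟩
    rw [← map_mul, ← map_mul]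
    intro h
    have h1 := raagBot.symm.injective h
    have h2 : (FreeGroup.of true * FreeGroup.of false : FreeGroup Bool) ≠
        FreeGroup.of false * FreeGroup.of true := by decide
    exact h2 h1
  · exact (Set.finite_range _).image _
  · have h1 := FreeGroup.closure_range_of Bool
    have h2 : Subgroup.closure (raagBot.symm '' (Set.range (FreeGroup.of : Bool → FreeGroup Bool)))
        = (Subgroup.closure (Set.range (FreeGroup.of : Bool → FreeGroup Bool))).map
            raagBot.symm.toMonoidHom := by
      rw [MonoidHom.map_closure]; rfl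
    rw [h2, h1]
    exact Subgroup.map_top_of_surjective _ raagBot.symm.surjective
  · rw [tcr_pull]
    exact tcr_free

end Pool.Agent.Results.MP_dff590_al.TcrPositive
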